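import Pool.Agent.Lib.MP_4d37d6_al.WP.Sep

/-!
An algebra with decidable word problem in which linear dependence encodes two recursively
inseparable sets.
-/

set_option autoImplicit false

namespace Pool.Agent.Lib.MP_4d37d6_al.WP

open Function

def wd (k : ℕ) (a : Fin 4) (l : List (Fin 4)) : List (Fin 4) := List.replicate k 0 ++ a :: l

theorem wd_succ (k : ℕ) (a : Fin 4) (l : List (Fin 4)) : wd (k + 1) a l = 0 :: wd k a l := rfl

theorem wd_zero (a : Fin 4) (l : List (Fin 4)) : wd 0 a l = a :: l := rfl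

theorem wd_inj {a b : Fin 4} (ha : a ≠ 0) (hb : b ≠ 0) {l l' : List (Fin 4)} :
    ∀ {k k' : ℕ}, wd k a l = wd k' b l' ↔ k = k' ∧ a = b ∧ l = l'
  | 0, 0 => by simp [wd_zero]
  | 0, k + 1 => by simp [wd_zero, wd_succ, ha]
  | k + 1, 0 => by simp [wd_zero, wd_succ, hb.symm]
  | k + 1, k' + 1 => by simp [wd_succ, wd_inj ha hb]

abbrev wE (n : ℕ) := wd n 3 []

abbrev wU (n k : ℕ) := wd k 1 (wE n)

abbrev wV (n k : ℕ) := wd k 2 (wE n)

theorem pr_wd {β : Type} [Primcodable β] {k : β → ℕ} (a : Fin 4) {l : β → List (Fin 4)}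
    (hk : Primrec k) (hl : Primrec l) : Primrec fun b => wd (k b) a (l b) :=
  Primrec.list_append.comp (pr_replicate hk (Primrec.const _))
    (Primrec.list_cons.comp (Primrec.const a) hl)

/-- the linear condition on the coefficients of the two words of index `n` and time `k` -/
def cd (n k : ℕ) (a b : ℚ) : Prop :=
  (∀ s, PP n s → a + s * b = 0) ∧ ((∀ s, ¬ PP n s) → b = 0 ∧ (¬ QQ n k → a = 0))

theorem cd_zero (n k : ℕ) : cd n k 0 0 := by simp [cd]

theorem cd_iff {n k : ℕ} {a b : ℚ} : cd n k a b ↔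
    (a = 0 ∧ b = 0) ∨ (∃ s, PP n s ∧ a + s * b = 0) ∨ (QQ n k ∧ b = 0) := by
  constructor
  · rintro ⟨h1, h2⟩
    by_cases h : ∃ s, PP n s
    · exact Or.inr (Or.inl (h.imp fun s h => ⟨h, h1 s h⟩))
    · have := h2 (not_exists.1 h)
      by_cases h' : QQ n k
      · exact Or.inr (Or.inr ⟨h', this.1⟩)
      · exact Or.inl ⟨this.2 h', this.1⟩
  · rintro (⟨rfl, rfl⟩ | ⟨s, h1, h2⟩ | ⟨h1, rfl⟩)
    · exact cd_zero n k
    · exact ⟨fun t ht => by rwa [ht.unique h1], fun h => absurd h1 (h s)⟩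
    · exact ⟨fun t ht => absurd h1 ht.not_QQ, fun _ => ⟨rfl, fun h => absurd h1 h⟩⟩

/-- the ideal of relations -/
def JJ : Submodule ℚ (FA (Fin 4)) where
  carrier := {f | (∀ w, 3 ∉ w → bw.coord w f = 0) ∧ (∀ n, bw.coord (wE n) f = 0) ∧
    ∀ n k, cd n k (bw.coord (wU n k) f) (bw.coord (wV n k) f)}
  zero_mem' := ⟨fun _ _ => map_zero _, fun _ => map_zero _, fun n k => by
    simpa only [map_zero] using cd_zero n k⟩
  add_mem' := fun {f f'} h h' => by
    refine ⟨fun w hw => ?_, fun n => ?_, fun n k => ⟨fun s hs => ?_, fun hs => ⟨?_, fun hq => ?_⟩⟩⟩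
    · rw [map_add, h.1 w hw, h'.1 w hw, add_zero]
    · rw [map_add, h.2.1, h'.2.1, add_zero]
    · rw [map_add, map_add]
      linear_combination (h.2.2 n k).1 s hs + (h'.2.2 n k).1 s hs
    · rw [map_add, ((h.2.2 n k).2 hs).1, ((h'.2.2 n k).2 hs).1, add_zero]
    · rw [map_add, ((h.2.2 n k).2 hs).2 hq, ((h'.2.2 n k).2 hs).2 hq, add_zero]
  smul_mem' := fun c f h => by
    refine ⟨fun w hw => ?_, fun n => ?_, fun n k => ⟨fun s hs => ?_, fun hs => ⟨?_, fun hq => ?_⟩⟩⟩
    · rw [map_smul, h.1 w hw, smul_zero]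
    · rw [map_smul, h.2.1, smul_zero]
    · rw [map_smul, map_smul, smul_eq_mul, smul_eq_mul]
      linear_combination c * (h.2.2 n k).1 s hs
    · rw [map_smul, ((h.2.2 n k).2 hs).1, smul_zero]
    · rw [map_smul, ((h.2.2 n k).2 hs).2 hq, smul_zero]

theorem mem_JJ {f : FA (Fin 4)} : f ∈ JJ ↔ (∀ w, 3 ∉ w → bw.coord w f = 0) ∧
    (∀ n, bw.coord (wE n) f = 0) ∧ ∀ n k, cd n k (bw.coord (wU n k) f) (bw.coord (wV n k) f) :=
  Iff.rfl

theorem left_mem (i : Fin 4) {f : FA (Fin 4)} (h : f ∈ JJ) : FreeAlgebra.ι ℚ i * f ∈ JJ := by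
  obtain ⟨h1, h2, h3⟩ := h
  refine ⟨fun w hw => ?_, fun n => ?_, fun n k => ?_⟩
  · cases w with
    | nil => exact (co_nil i f).1
    | cons j w => rw [co_mul_left, h1 w fun h => hw (List.mem_cons_of_mem _ h), ite_self]
  · cases n with
    | zero => rw [wE, wd_zero, co_mul_left, h1 [] (by simp), ite_self]
    | succ n => rw [wE, wd_succ, co_mul_left, h2, ite_self]
  · cases k with
    | zero =>
      rw [wU, wV, wd_zero, wd_zero, co_mul_left, co_mul_left, h2, ite_self, ite_self]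
      exact cd_zero _ _
    | succ k =>
      rw [wU, wV, wd_succ, wd_succ, co_mul_left, co_mul_left]
      split_ifs
      · exact ⟨(h3 n k).1, fun hs => ⟨((h3 n k).2 hs).1, fun hq =>
          ((h3 n k).2 hs).2 fun h => hq h.succ⟩⟩
      · exact cd_zero _ _

theorem right_mem (i : Fin 4) {f : FA (Fin 4)} (h : ∀ w, 3 ∉ w → bw.coord w f = 0) :
    f * FreeAlgebra.ι ℚ i ∈ JJ := by
  have h1 : ∀ w j, 3 ∉ w → bw.coord (w ++ [j]) (f * FreeAlgebra.ι ℚ i) = 0 := fun w j hw => by
    rw [co_mul_right, h w hw, ite_self]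
  have h2 : ∀ n k (a : Fin 4), a ≠ 3 → bw.coord (wd k a (wE n)) (f * FreeAlgebra.ι ℚ i) = 0 :=
    fun n k a ha => by
      have := h1 (wd k a (List.replicate n 0)) 3 (by simp [wd, List.mem_replicate, ha.symm])
      rwa [wd, List.append_assoc] at this
  refine ⟨fun w hw => ?_, fun n => h1 _ 3 (by simp [List.mem_replicate]), fun n k => ?_⟩
  · rcases w.eq_nil_or_concat' with rfl | ⟨w, j, rfl⟩
    · exact (co_nil i f).2
    · exact h1 w j fun h => hw (List.mem_append_left _ h)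
  · rw [h2 n k 1 (by decide), h2 n k 2 (by decide)]
    exact cd_zero _ _

theorem mul_mem_JJ (y : FA (Fin 4)) : ∀ f ∈ JJ, y * f ∈ JJ ∧ f * y ∈ JJ := by
  induction y using FreeAlgebra.induction with
  | grade0 c =>
    intro f hf
    rw [← Algebra.commutes, ← Algebra.smul_def, and_self]
    exact JJ.smul_mem c hf
  | grade1 i => exact fun f hf => ⟨left_mem i hf, right_mem i hf.1⟩
  | mul a b ha hb =>
    intro f hf
    rw [mul_assoc, ← mul_assoc f]
    exact ⟨(ha _ (hb f hf).1).1, (hb _ (ha f hf).2).2⟩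
  | add a b ha hb =>
    intro f hf
    rw [add_mul, mul_add]
    exact ⟨JJ.add_mem (ha f hf).1 (hb f hf).1, JJ.add_mem (ha f hf).2 (hb f hf).2⟩

/-- the decidable form of the condition -/
def dec (t : Terms (Fin 4)) (n k : ℕ) : Prop :=
  (t.count (false, wU n k) = t.count (true, wU n k) ∧
    t.count (false, wV n k) = t.count (true, wV n k)) ∨
  (∃ s ∈ List.range (t.length + 1), PP n s ∧ t.count (false, wU n k) + s * t.count (false, wV n k) =
    t.count (true, wU n k) + s * t.count (true, wV n k)) ∨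
  (QQ n k ∧ t.count (false, wV n k) = t.count (true, wV n k))

theorem dec_iff (t : Terms (Fin 4)) (n k : ℕ) : dec t n k ↔
    cd n k (bw.coord (wU n k) (poly (FreeAlgebra.ι ℚ) t))
      (bw.coord (wV n k) (poly (FreeAlgebra.ι ℚ) t)) := by
  rw [cd_iff, co_poly, co_poly, dec]
  have h1 : t.count (false, wU n k) ≤ t.length := List.count_le_length
  have h2 : t.count (true, wU n k) ≤ t.length := List.count_le_length
  generalize t.count (false, wU n k) = a at h1 ⊢
  generalize t.count (true, wU n k) = b at h2 ⊢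
  generalize t.count (false, wV n k) = c
  generalize t.count (true, wV n k) = d
  have h3 : ∀ s : ℕ, (a : ℚ) - b + s * (c - d) = 0 ↔ a + s * c = b + s * d := fun s => by
    rw [← Nat.cast_inj (R := ℚ)]
    push_cast
    constructor <;> intro h <;> linear_combination h
  simp only [h3, sub_eq_zero, Nat.cast_inj, List.mem_range]
  refine ⟨Or.imp_right (Or.imp_left fun ⟨s, h⟩ => ⟨s, h.2⟩), ?_⟩
  rintro (h | ⟨s, h4, h5⟩ | h)
  · exact Or.inl h
  · rcases lt_trichotomy c d with e | rfl | e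
    · exact Or.inr (Or.inl ⟨s, by nlinarith, h4, h5⟩)
    · exact Or.inl ⟨by omega, rfl⟩
    · exact Or.inr (Or.inl ⟨s, by nlinarith, h4, h5⟩)
  · exact Or.inr (Or.inr h)

theorem pr_dec : PrimrecRel fun (k : ℕ) (x : ℕ × Terms (Fin 4)) => dec x.2 x.1 k := by
  have hE : Primrec fun x : ℕ × ℕ × Terms (Fin 4) => wE x.2.1 :=
    pr_wd 3 (Primrec.fst.comp Primrec.snd) (Primrec.const _)
  have hc : ∀ (b : Bool) (a : Fin 4), Primrec fun x : ℕ × ℕ × Terms (Fin 4) =>
      x.2.2.count (b, wd x.1 a (wE x.2.1)) := fun b a =>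
    pr_count (Primrec.snd.comp Primrec.snd) ((Primrec.const b).pair (pr_wd a Primrec.fst hE))
  have hd : ∀ b : Bool, Primrec fun y : ℕ × ℕ × ℕ × Terms (Fin 4) =>
      y.2.2.2.count (b, wU y.2.2.1 y.2.1) + y.1 * y.2.2.2.count (b, wV y.2.2.1 y.2.1) := fun b =>
    Primrec.nat_add.comp ((hc b 1).comp Primrec.snd)
      (Primrec.nat_mul.comp Primrec.fst ((hc b 2).comp Primrec.snd))
  have h1 : PrimrecRel fun (s : ℕ) (x : ℕ × ℕ × Terms (Fin 4)) => PP x.2.1 s ∧
      x.2.2.count (false, wU x.2.1 x.1) + s * x.2.2.count (false, wV x.2.1 x.1) =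
        x.2.2.count (true, wU x.2.1 x.1) + s * x.2.2.count (true, wV x.2.1 x.1) :=
    (pr_PP.comp (Primrec.fst.comp (Primrec.snd.comp Primrec.snd)) Primrec.fst).and
      (Primrec.eq.comp (hd false) (hd true))
  exact ((Primrec.eq.comp (hc false 1) (hc true 1)).and
    (Primrec.eq.comp (hc false 2) (hc true 2))).or
    ((h1.exists_mem_list.comp (Primrec.list_range.comp (Primrec.succ.comp
      (Primrec.list_length.comp (Primrec.snd.comp Primrec.snd)))) Primrec.id).or
    ((pr_QQ.comp (Primrec.fst.comp Primrec.snd) Primrec.fst).and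
      (Primrec.eq.comp (hc false 2) (hc true 2))))

theorem pr_JJ : PrimrecPred fun t : Terms (Fin 4) => poly (FreeAlgebra.ι ℚ) t ∈ JJ := by
  have hB : Primrec fun t : Terms (Fin 4) => List.range (t.map fun p => p.2.length).sum :=
    Primrec.list_range.comp (pr_sum.comp (Primrec.list_map Primrec.id
      (Primrec.list_length.comp (Primrec.snd.comp Primrec.snd)).to₂))
  have hc : ∀ {β : Type} [Primcodable β] {w : β → List (Fin 4)}, Primrec w →
      PrimrecRel fun (b : β) (t : Terms (Fin 4)) => t.count (false, w b) = t.count (true, w b) :=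
    fun hw => Primrec.eq.comp (pr_count Primrec.snd ((Primrec.const _).pair (hw.comp Primrec.fst)))
      (pr_count Primrec.snd ((Primrec.const _).pair (hw.comp Primrec.fst)))
  have h1 : PrimrecRel fun (p : Bool × List (Fin 4)) (t : Terms (Fin 4)) =>
      ¬ p.2.count 3 = 0 ∨ t.count (false, p.2) = t.count (true, p.2) :=
    (Primrec.eq.comp (pr_count (Primrec.snd.comp Primrec.fst) (Primrec.const _))
      (Primrec.const _)).not.or (hc Primrec.snd)
  have h2 : PrimrecRel fun (n : ℕ) (t : Terms (Fin 4)) =>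
      ∀ k ∈ List.range (t.map fun p => p.2.length).sum, dec t n k :=
    pr_dec.forall_mem_list.comp (hB.comp Primrec.snd) Primrec.id
  refine ((h1.forall_mem_list.comp Primrec.id Primrec.id).and
    (((hc (pr_wd 3 Primrec.id (Primrec.const []))).forall_mem_list.comp hB Primrec.id).and
      (h2.forall_mem_list.comp hB Primrec.id))).of_eq fun t => ?_
  have h3 : ∀ w, bw.coord w (poly (FreeAlgebra.ι ℚ) t) = 0 ↔
      t.count (false, w) = t.count (true, w) := fun w => by
    rw [co_poly, sub_eq_zero, Nat.cast_inj]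
  have h4 : ∀ w, (∀ p ∈ t, p.2 ≠ w) → bw.coord w (poly (FreeAlgebra.ι ℚ) t) = 0 := fun w h => by
    rw [h3, List.count_eq_zero_of_not_mem fun e => h _ e rfl,
      List.count_eq_zero_of_not_mem fun e => h _ e rfl]
  have h5 : ∀ w : List (Fin 4), (t.map fun p => p.2.length).sum < w.length →
      bw.coord w (poly (FreeAlgebra.ι ℚ) t) = 0 := fun w h => h4 w fun p hp e => by
    have := List.single_le_sum (l := t.map fun p => p.2.length) (fun _ _ => Nat.zero_le _) _
      (List.mem_map_of_mem hp)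
    rw [e] at this
    omega
  simp only [mem_JJ, id, List.mem_range, dec_iff, ← h3, List.count_eq_zero, not_not]
  refine and_congr ⟨fun h w hw => ?_, fun h p _ => (em _).imp_right (h _)⟩ (and_congr
    ⟨fun h n => ?_, fun h n _ => h n⟩ ⟨fun h n k => ?_, fun h n _ k _ => h n k⟩)
  · by_contra e
    exact e (h4 w fun p hp e' => e (e' ▸ (h p hp).resolve_left (e' ▸ hw)))
  · by_contra e
    exact e (h n (not_le.1 fun e' => e (h5 _ (by simp [wd]; omega))))
  · by_contra e
    refine e (h n (not_le.1 fun e' => e ?_) k (not_le.1 fun e' => e ?_)) <;>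
    · rw [h5 _ (by simp [wd]; omega), h5 _ (by simp [wd]; omega)]
      exact cd_zero _ _

theorem exists_alg : ∃ (A : Type) (_ : Ring A) (_ : Algebra ℚ A) (a : Fin 4 → A),
    Submodule.span ℚ (Set.range (ev a)) = ⊤ ∧ PrimrecPred (fun t => poly a t = 0) ∧
    (∀ n, ev a (wU n 0) ≠ 0) ∧ (∀ n s, PP n s → ev a (wV n 0) = (s : ℚ) • ev a (wU n 0)) ∧
    (∀ n k, QQ n k → ev a (wU n k) = 0 ∧ ev a (wV n k) ≠ 0) ∧ ∀ i, a 3 * a i = 0 := by
  let I : TwoSidedIdeal (FA (Fin 4)) := TwoSidedIdeal.mk' JJ JJ.zero_mem JJ.add_mem JJ.neg_mem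
    (fun h => (mul_mem_JJ _ _ h).1) fun h => (mul_mem_JJ _ _ h).2
  let q := RingCon.mkₐ ℚ I.ringCon
  have hq : ∀ z, q z = 0 ↔ z ∈ JJ := fun z => by
    have h : z ∈ I ↔ z ∈ JJ := TwoSidedIdeal.mem_mk' ..
    rw [← h]
    conv_rhs => rw [← TwoSidedIdeal.ker_ringCon_mk' I, TwoSidedIdeal.mem_ker]
    rfl
  have hs : Surjective q := RingCon.mk'_surjective _
  have e1 : (1 : Fin 4) ≠ 0 := by decide
  have e2 : (2 : Fin 4) ≠ 0 := by decide
  have e3 : (3 : Fin 4) ≠ 0 := by decide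
  have hw : ∀ n k (a : Fin 4) w, 3 ∉ w → wd k a (wE n) ≠ w := fun n k a w h e =>
    h (by simp [← e, wd])
  refine ⟨_, inferInstance, inferInstance, q ∘ FreeAlgebra.ι ℚ, eq_top_iff.2 fun y _ => ?_,
    pr_JJ.of_eq fun t => by rw [← hq, map_poly], fun n h => ?_, fun n s h => ?_,
    fun n k h => ⟨?_, fun h' => ?_⟩, fun i => ?_⟩
  · obtain ⟨f, rfl⟩ := hs y
    have := lift_mem (q ∘ FreeAlgebra.ι ℚ) f
    rwa [FreeAlgebra.lift_comp_ι] at this
  · rw [← map_ev, hq] at h
    have := h.2.2 n 0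
    simp [cd_iff, co_ev, wd_inj e1 e2, QQ.zero, -Module.Basis.coord_apply] at this
  · rw [← map_ev, ← map_ev, ← map_smul, ← sub_eq_zero, ← map_sub, hq]
    refine ⟨fun w h' => ?_, fun m => ?_, fun m k => ?_⟩
    · simp [co_ev, hw n 0 _ w h', -Module.Basis.coord_apply]
    · simp [co_ev, wd_inj e1 e3, wd_inj e2 e3, -Module.Basis.coord_apply]
    · by_cases e : 0 = k ∧ n = m
      · obtain ⟨rfl, rfl⟩ := e
        refine cd_iff.2 (Or.inr (Or.inl ⟨s, h, ?_⟩))
        simp [co_ev, wd_inj e1 e2, wd_inj e2 e1, -Module.Basis.coord_apply]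
      · simpa [co_ev, wd_inj e1 e1, wd_inj e1 e2, wd_inj e2 e1, wd_inj e2 e2, wd_inj e3 e3, e,
          -Module.Basis.coord_apply] using cd_zero m k
  · rw [← map_ev, hq]
    refine ⟨fun w h' => ?_, fun m => ?_, fun m l => ?_⟩
    · simp [co_ev, hw n k _ w h', -Module.Basis.coord_apply]
    · simp [co_ev, wd_inj e1 e3, -Module.Basis.coord_apply]
    · by_cases e : k = l ∧ n = m
      · obtain ⟨rfl, rfl⟩ := e
        refine cd_iff.2 (Or.inr (Or.inr ⟨h, ?_⟩))
        simp [co_ev, wd_inj e1 e2, -Module.Basis.coord_apply]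
      · simpa [co_ev, wd_inj e1 e1, wd_inj e1 e2, wd_inj e3 e3, e,
          -Module.Basis.coord_apply] using cd_zero m l
  · rw [← map_ev, hq] at h'
    have := ((h'.2.2 n k).2 fun s hs => hs.not_QQ h).1
    simp [co_ev, -Module.Basis.coord_apply] at this
  · rw [comp_apply, comp_apply, ← map_mul, hq]
    refine right_mem i fun w hw => ?_
    have := co_ev w [3]
    rwa [if_neg fun e => hw (by simp [← e]), ev_cons, ev_nil, mul_one] at this

end Pool.Agent.Lib.MP_4d37d6_al.WP
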