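import Pool.Agent.Lib.MP_4d37d6_al.WP.Sig

/-!
Signed lists of words: coefficients, operators, and the zero test in a finitely presented algebra.
-/

set_option autoImplicit false

namespace Pool.Agent.Lib.MP_4d37d6_al.WP

open Function

section Signed

variable {γ V : Type*} [AddCommGroup V] (G : γ → V)

/-- the signed sum -/
def sg (W : List (Bool × γ)) : V := (W.map fun p => bif p.1 then - G p.2 else G p.2).sum

@[simp] theorem sg_nil : sg G [] = 0 := rfl

@[simp] theorem sg_true (c : γ) (W : List (Bool × γ)) :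
    sg G ((true, c) :: W) = - G c + sg G W := by simp [sg]

@[simp] theorem sg_false (c : γ) (W : List (Bool × γ)) :
    sg G ((false, c) :: W) = G c + sg G W := by simp [sg]

@[simp] theorem sg_append (W W' : List (Bool × γ)) : sg G (W ++ W') = sg G W + sg G W' := by
  simp [sg]

theorem map_sg {V' : Type*} [AddCommGroup V'] (f : V →+ V') (W : List (Bool × γ)) :
    f (sg G W) = sg (fun c => f (G c)) W := by
  induction W with
  | nil => simp
  | cons p W ih => obtain ⟨_ | _, c⟩ := p <;> simp [ih]

theorem exists_zsmul (z : ℤ) (W : List (Bool × γ)) : ∃ W', sg G W' = z • sg G W := by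
  have h1 : ∀ (k : ℕ) (W : List (Bool × γ)), ∃ W', sg G W' = k • sg G W := fun k W => by
    induction k with
    | zero => exact ⟨[], by simp⟩
    | succ k ih => exact ih.elim fun W' h => ⟨W' ++ W, by rw [sg_append, h, succ_nsmul]⟩
  have h2 : ∃ W', sg G W' = - sg G W := by
    induction W with
    | nil => exact ⟨[], by simp⟩
    | cons p W ih =>
      obtain ⟨W', h⟩ := ih
      obtain ⟨_ | _, c⟩ := p
      · exact ⟨(true, c) :: W', by simp [h, add_comm]⟩
      · exact ⟨(false, c) :: W', by simp [h, add_comm]⟩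
  obtain ⟨k, rfl | rfl⟩ := z.eq_nat_or_neg
  · simpa using h1 k W
  · obtain ⟨W', h⟩ := h2
    simpa [h] using h1 k W'

theorem clear [Module ℚ V] {x : V} (hx : x ∈ Submodule.span ℚ (Set.range G)) :
    ∃ (D : ℕ) (W : List (Bool × γ)), (D + 1) • x = sg G W := by
  induction hx using Submodule.span_induction with
  | mem x h => exact h.elim fun c h => ⟨0, [(false, c)], by simp [h]⟩
  | zero => exact ⟨0, [], by simp⟩
  | add x y _ _ h1 h2 =>
    obtain ⟨D, W, h1⟩ := h1
    obtain ⟨D', W', h2⟩ := h2
    obtain ⟨Z, h3⟩ := exists_zsmul G (D' + 1 : ℕ) W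
    obtain ⟨Z', h4⟩ := exists_zsmul G (D + 1 : ℕ) W'
    refine ⟨D * D' + D + D', Z ++ Z', ?_⟩
    rw [sg_append, h3, h4, ← h1, ← h2, natCast_zsmul, natCast_zsmul, smul_smul, smul_smul,
      smul_add]
    congr 2 <;> ring
  | smul q x _ h =>
    obtain ⟨D, W, h⟩ := h
    obtain ⟨Z, h3⟩ := exists_zsmul G q.num W
    obtain ⟨d, hd⟩ := Nat.exists_eq_succ_of_ne_zero q.den_ne_zero
    refine ⟨D * d + D + d, Z, ?_⟩
    rw [h3, ← h, ← Nat.cast_smul_eq_nsmul ℚ, ← Nat.cast_smul_eq_nsmul ℚ,
      ← Int.cast_smul_eq_zsmul ℚ, smul_smul, smul_smul, ← Rat.mul_den_eq_num q, hd]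
    congr 1
    push_cast
    ring

end Signed

variable {α : Type}

abbrev Ops (α : Type) := List (Bool × List α × List α)

/-- apply a signed sum of two-sided multiplications -/
def act (W : Ops α) (t : Terms α) : Terms α :=
  W.flatMap fun w => t.map fun p => (xor w.1 p.1, w.2.1 ++ p.2 ++ w.2.2)

theorem pr_act [Primcodable α] : Primrec₂ (act (α := α)) := by
  have h1 : Primrec fun x : ((Ops α × Terms α) × (Bool × List α × List α)) × (Bool × List α) =>
      x.1.2 := Primrec.snd.comp Primrec.fst
  exact Primrec.list_flatMap Primrec.fst (Primrec.list_map (Primrec.snd.comp Primrec.fst)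
    ((((Primrec.dom_bool₂ xor).comp (Primrec.fst.comp h1) (Primrec.fst.comp Primrec.snd)).pair
      (Primrec.list_append.comp (Primrec.list_append.comp
        (Primrec.fst.comp (Primrec.snd.comp h1)) (Primrec.snd.comp Primrec.snd))
        (Primrec.snd.comp (Primrec.snd.comp h1)))).to₂)).to₂

section Ring

variable {T : Type*} [Ring T] (g : α → T)

theorem poly_eq_sg (t : Terms α) : poly g t = sg (ev g) t := rfl

theorem poly_act (W : Ops α) (t : Terms α) :
    poly g (act W t) = sg (fun c : List α × List α => ev g c.1 * poly g t * ev g c.2) W := by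
  induction W with
  | nil => rfl
  | cons w W ih =>
    obtain ⟨s, l, r⟩ := w
    have : poly g (t.map fun p => (xor s p.1, l ++ p.2 ++ r)) =
        bif s then - (ev g l * poly g t * ev g r) else ev g l * poly g t * ev g r := by
      clear ih
      induction t with
      | nil => cases s <;> simp
      | cons p t ih =>
        obtain ⟨b, w⟩ := p
        rw [List.map_cons, poly_cons, ih]
        cases s <;> cases b <;> simp [mul_add, add_mul, add_comm, mul_assoc]
    rw [act, List.flatMap_cons, poly_append, this, ← act, ih]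
    cases s <;> simp

theorem poly_scal (k : ℕ) (t : Terms α) :
    poly g (act (List.replicate k (true, [], [])) t) = - (k • poly g t) := by
  rw [poly_act]
  simp [sg]

theorem poly_left (z t : Terms α) :
    poly g (act (z.map fun p => (p.1, p.2, [])) t) = poly g z * poly g t := by
  rw [poly_act]
  induction z with
  | nil => simp
  | cons p z ih => obtain ⟨_ | _, c⟩ := p <;> simp [ih, add_mul]

theorem poly_right (z t : Terms α) :
    poly g (act (z.map fun p => (p.1, [], p.2)) t) = poly g t * poly g z := by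
  rw [poly_act]
  induction z with
  | nil => simp
  | cons p z ih => obtain ⟨_ | _, c⟩ := p <;> simp [ih, mul_add]

end Ring

abbrev FA (α : Type) := FreeAlgebra ℚ α

noncomputable def bw : Module.Basis (List α) ℚ (FA α) :=
  (FreeAlgebra.basisFreeMonoid ℚ α).reindex FreeMonoid.toList

theorem bw_apply (l : List α) : bw l = ev (FreeAlgebra.ι ℚ) l := by
  simp [bw, FreeAlgebra.basisFreeMonoid, FreeAlgebra.equivMonoidAlgebraFreeMonoid, ev,
    FreeMonoid.lift_apply]

theorem span_ev : Submodule.span ℚ (Set.range (ev (FreeAlgebra.ι ℚ (X := α)))) = ⊤ := by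
  rw [← bw.span_eq, funext bw_apply]

variable [DecidableEq α]

theorem co_ev (w l : List α) :
    bw.coord w (ev (FreeAlgebra.ι ℚ) l) = if l = w then 1 else 0 := by
  rw [← bw_apply, Module.Basis.coord_apply, Module.Basis.repr_self, Finsupp.single_apply]

theorem co_poly (w : List α) (t : Terms α) : bw.coord w (poly (FreeAlgebra.ι ℚ) t) =
    (t.count (false, w) : ℚ) - t.count (true, w) := by
  induction t with
  | nil => simp
  | cons p t ih =>
    obtain ⟨_ | _, l⟩ := p <;> by_cases h : l = w <;>
      simp only [poly_cons, map_add, ih, tv_true, tv_false, map_neg, co_ev] <;>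
      simp [h] <;> ring

theorem co_mul_left (i j : α) (w : List α) (f : FA α) :
    bw.coord (j :: w) (FreeAlgebra.ι ℚ i * f) = if i = j then bw.coord w f else 0 := by
  have : (bw.coord (j :: w)).comp (LinearMap.mulLeft ℚ (FreeAlgebra.ι ℚ i)) =
      if i = j then bw.coord w else 0 := bw.ext fun l => by
    rw [LinearMap.comp_apply, LinearMap.mulLeft_apply, bw_apply, ← ev_cons, co_ev]
    by_cases h : i = j <;> simp [h, co_ev, -Module.Basis.coord_apply]
  have := LinearMap.congr_fun this f
  split_ifs at this ⊢ <;> exact this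

theorem co_mul_right (i j : α) (w : List α) (f : FA α) :
    bw.coord (w ++ [j]) (f * FreeAlgebra.ι ℚ i) = if i = j then bw.coord w f else 0 := by
  have : (bw.coord (w ++ [j])).comp (LinearMap.mulRight ℚ (FreeAlgebra.ι ℚ i)) =
      if i = j then bw.coord w else 0 := bw.ext fun l => by
    have e : ev (FreeAlgebra.ι ℚ) l * FreeAlgebra.ι ℚ i = ev (FreeAlgebra.ι ℚ) (l ++ [i]) := by simp
    rw [LinearMap.comp_apply, LinearMap.mulRight_apply, bw_apply, e, co_ev]
    by_cases h : i = j <;> simp [h, co_ev, -Module.Basis.coord_apply]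
  have := LinearMap.congr_fun this f
  split_ifs at this ⊢ <;> exact this

theorem co_nil (i : α) (f : FA α) : bw.coord [] (FreeAlgebra.ι ℚ i * f) = 0 ∧
    bw.coord [] (f * FreeAlgebra.ι ℚ i) = 0 := by
  have h1 : (bw.coord []).comp (LinearMap.mulLeft ℚ (FreeAlgebra.ι ℚ i)) = 0 := bw.ext fun l => by
    rw [LinearMap.comp_apply, LinearMap.mulLeft_apply, bw_apply, ← ev_cons, co_ev]
    simp
  have h2 : (bw.coord []).comp (LinearMap.mulRight ℚ (FreeAlgebra.ι ℚ i)) = 0 := bw.ext fun l => by
    have e : ev (FreeAlgebra.ι ℚ) l * FreeAlgebra.ι ℚ i = ev (FreeAlgebra.ι ℚ) (l ++ [i]) := by simp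
    rw [LinearMap.comp_apply, LinearMap.mulRight_apply, bw_apply, e, co_ev]
    simp
  exact ⟨LinearMap.congr_fun h1 f, LinearMap.congr_fun h2 f⟩

theorem poly_free_eq_zero (t : Terms α) : poly (FreeAlgebra.ι ℚ) t = 0 ↔
    ∀ p ∈ t, t.count (false, p.2) = t.count (true, p.2) := by
  refine ⟨fun h p _ => ?_, fun h => bw.forall_coord_eq_zero_iff.1 fun w => ?_⟩
  · have := co_poly p.2 t
    rw [h, map_zero, eq_comm, sub_eq_zero] at this
    exact_mod_cast this
  · rw [co_poly, sub_eq_zero]
    by_cases h1 : (false, w) ∈ t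
    · exact_mod_cast h _ h1
    by_cases h2 : (true, w) ∈ t
    · exact_mod_cast h _ h2
    rw [List.count_eq_zero_of_not_mem h1, List.count_eq_zero_of_not_mem h2]

theorem pr_count {β γ : Type} [Primcodable β] [Primcodable γ] [BEq β] [LawfulBEq β]
    {l : γ → List β} {b : γ → β} (hl : Primrec l) (hb : Primrec b) :
    Primrec fun c => (l c).count (b c) := by
  classical
  exact ((Primrec.list_length.comp (PrimrecRel.listFilter (R := fun a b : β => a = b)
    Primrec.eq)).comp (hl.pair hb)).of_eq fun c => by
      simp [List.count, List.countP_eq_length_filter, ← beq_iff_eq]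

theorem pr_free [Primcodable α] :
    PrimrecPred fun t : Terms α => poly (FreeAlgebra.ι ℚ) t = 0 := by
  have h1 : PrimrecRel fun (p : Bool × List α) (t : Terms α) =>
      t.count (false, p.2) = t.count (true, p.2) :=
    Primrec.eq.comp (pr_count Primrec.snd ((Primrec.const _).pair (Primrec.snd.comp Primrec.fst)))
      (pr_count Primrec.snd ((Primrec.const _).pair (Primrec.snd.comp Primrec.fst)))
  exact (h1.forall_mem_list.comp Primrec.id Primrec.id).of_eq fun t => (poly_free_eq_zero t).symm

end Pool.Agent.Lib.MP_4d37d6_al.WP
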