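import Pool.Agent.Lib.MP_4d37d6_al.WP.LieSep

/-!
A Lie algebra with decidable word problem that lies in no simple subalgebra of a finitely
presented Lie algebra.
-/

set_option autoImplicit false

namespace Pool.Agent.Lib.MP_4d37d6_al.WP

open Function

attribute [local instance 100] LieRing.ofAssociativeRing

theorem pr_intNeg : Primrec fun z : ℤ => -z := by
  have h : Primrec fun z : ℤ => Encodable.encode z := Primrec.encode
  refine Primrec.encode_iff.1 ((Primrec.ite (Primrec.eq.comp h (Primrec.const 0)) (Primrec.const 0)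
    (Primrec.ite pr_neg (Primrec.succ.comp h) (Primrec.pred.comp h))).of_eq fun z => ?_)
  rcases z with (_ | k) | k
  · rfl
  · change _ = Encodable.encode (Int.negSucc k)
    rw [encode_ofNat, encode_negSucc, if_neg (by omega), if_neg (by simp; omega)]
    rfl
  · change _ = Encodable.encode (Int.ofNat (k + 1))
    rw [encode_ofNat, encode_negSucc, if_neg (by omega), if_pos (Int.negSucc_lt_zero k)]
    rfl

/-- expansion of the bracketed word with number `k` -/
def xp (k : ℕ) : Terms (Fin 4) :=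
  if k % 2 = 0 then [(false, [[0, 1, 2, 3].getD (k / 2) 0])]
  else br (xp (k / 2).unpair.1) (xp (k / 2).unpair.2)
decreasing_by
  · have := (k / 2).unpair_left_le; omega
  · have := (k / 2).unpair_right_le; omega

theorem pr_xp : Primrec xp := by
  have h1 : PrimrecPred fun k : ℕ => k % 2 = 0 :=
    Primrec.eq.comp (Primrec.nat_mod.comp Primrec.id (Primrec.const 2)) (Primrec.const 0)
  have h2 : Primrec fun k : ℕ => k / 2 := Primrec.nat_div.comp Primrec.id (Primrec.const 2)
  refine Primrec.nat_omega_rec' xp (m := id)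
    (l := fun k => if k % 2 = 0 then [] else [(k / 2).unpair.1, (k / 2).unpair.2])
    (g := fun k M => some (if k % 2 = 0 then [(false, [[0, 1, 2, 3].getD (k / 2) 0])]
      else br (M.getD 0 []) (M.getD 1 []))) Primrec.id
    (Primrec.ite h1 (Primrec.const []) (Primrec.list_cons.comp
      (Primrec.fst.comp (Primrec.unpair.comp h2)) (Primrec.list_cons.comp
        (Primrec.snd.comp (Primrec.unpair.comp h2)) (Primrec.const []))))
    (Primrec.option_some.comp (Primrec.ite (h1.comp Primrec.fst) (Primrec.list_cons.comp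
      ((Primrec.const false).pair (Primrec.list_cons.comp ((Primrec.list_getD 0).comp
        (Primrec.const _) (h2.comp Primrec.fst)) (Primrec.const []))) (Primrec.const []))
      (pr_br.comp ((Primrec.list_getD []).comp Primrec.snd (Primrec.const 0))
        ((Primrec.list_getD []).comp Primrec.snd (Primrec.const 1))))).to₂
    (fun k j hj => ?_) fun k => ?_
  · have := (k / 2).unpair_left_le
    have := (k / 2).unpair_right_le
    split_ifs at hj <;> simp at hj ⊢
    omega
  · rw [xp]
    split_ifs <;> rfl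

/-- expansion of a formal combination of bracketed words -/
def xc (l : List ((ℤ × ℕ) × ℕ)) : Comb 4 :=
  l.flatMap fun t => (xp t.2).map fun p => ((bif p.1 then -t.1.1 else t.1.1, t.1.2), p.2)

theorem pr_xc : Primrec xc := by
  have h : Primrec fun x : (List ((ℤ × ℕ) × ℕ) × ((ℤ × ℕ) × ℕ)) × (Bool × List (Fin 4)) =>
      x.1.2.1 := Primrec.fst.comp (Primrec.snd.comp Primrec.fst)
  exact Primrec.list_flatMap Primrec.id (Primrec.list_map
    (pr_xp.comp (Primrec.snd.comp Primrec.snd)) (((Primrec.cond (Primrec.fst.comp Primrec.snd)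
      (pr_intNeg.comp (Primrec.fst.comp h)) (Primrec.fst.comp h)).pair (Primrec.snd.comp h)).pair
      (Primrec.snd.comp Primrec.snd)).to₂).to₂

theorem combVal_xc {A : Type*} [Ring A] [Algebra ℚ A] (a : Fin 4 → A) (l : List ((ℤ × ℕ) × ℕ)) :
    combVal ℚ a (xc l) = (l.map fun t => ((t.1.1 : ℚ) / (t.1.2 : ℚ)) • poly a (xp t.2)).sum := by
  induction l with
  | nil => rfl
  | cons t l ih =>
    rw [List.map_cons, List.sum_cons, ← ih, xc, List.flatMap_cons, combVal, List.map_append,
      List.sum_append]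
    congr 1
    induction xp t.2 with
    | nil => simp
    | cons p s ih =>
      rw [List.map_cons, List.map_cons, List.sum_cons, ih, poly_cons, smul_add]
      obtain ⟨_ | _, w⟩ := p <;> simp [neg_div]

/-- the value of a bracketed word -/
def lm {L : Type*} [LieRing L] (a : Fin 4 → L) : FreeMagma (Fin 4) → L
  | .of i => a i
  | .mul x y => ⁅lm a x, lm a y⁆

/-- the number of a bracketed word -/
def cw : FreeMagma (Fin 4) → ℕ
  | .of i => 2 * i
  | .mul x y => 2 * Nat.pair (cw x) (cw y) + 1

theorem poly_xp {A : Type*} [Ring A] (a : Fin 4 → A) : ∀ w, poly a (xp (cw w)) = lm a w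
  | .of i => by
    rw [xp, cw, if_pos (by omega), lm]
    fin_cases i <;> simp
  | .mul x y => by
    rw [xp, cw, if_neg (by omega), show (2 * Nat.pair (cw x) (cw y) + 1) / 2 =
      Nat.pair (cw x) (cw y) by omega, Nat.unpair_pair, poly_br, poly_xp a x, poly_xp a y, lm]

theorem main_lie : ∃ (L : Type) (_ : LieRing L) (_ : LieAlgebra ℚ L) (a : Fin 4 → L),
    Submodule.span ℚ (Set.range (lm a)) = ⊤ ∧
    (∃ p : List ((ℤ × ℕ) × ℕ) → Prop, PrimrecPred p ∧ ∀ l : List ((ℤ × ℕ) × FreeMagma (Fin 4)),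
      p (l.map fun t => (t.1, cw t.2)) ↔
        (l.map fun t => ((t.1.1 : ℚ) / (t.1.2 : ℚ)) • lm a t.2).sum = 0) ∧
    ∀ {H : Type*} [LieRing H] [LieAlgebra ℚ H] {m : ℕ} (π : FreeLieAlgebra ℚ (Fin m) →ₗ⁅ℚ⁆ H)
      (R : Finset (FreeLieAlgebra ℚ (Fin m))), Surjective π →
      π.ker = LieSubmodule.lieSpan ℚ (FreeLieAlgebra ℚ (Fin m))
        (R : Set (FreeLieAlgebra ℚ (Fin m))) →
      ∀ {S : Type*} [LieRing S] [LieAlgebra ℚ S], (∀ I : LieIdeal ℚ S, I = ⊥ ∨ I = ⊤) →
        ∀ (φ : L →ₗ⁅ℚ⁆ S) (ψ : S →ₗ⁅ℚ⁆ H), ¬ Injective fun x => ψ (φ x) := by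
  obtain ⟨A, _, _, a, -, h2, h3, h4, h5, hm⟩ := exists_alg
  let L : LieSubalgebra ℚ A :=
    { Submodule.span ℚ (Set.range (lm a)) with
      lie_mem' := fun {x y} hx hy => by
        change ⁅x, y⁆ ∈ Submodule.span ℚ (Set.range (lm a))
        induction hx, hy using Submodule.span_induction₂ with
        | mem_mem x y hx hy =>
          obtain ⟨w, rfl⟩ := hx
          obtain ⟨w', rfl⟩ := hy
          exact Submodule.subset_span ⟨.mul w w', rfl⟩
        | zero_left => simp
        | zero_right => simp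
        | add_left x y z _ _ _ h h' => rw [add_lie]; exact add_mem h h'
        | add_right x y z _ _ _ h h' => rw [lie_add]; exact add_mem h h'
        | smul_left c x y _ _ h => rw [smul_lie]; exact Submodule.smul_mem _ c h
        | smul_right c x y _ _ h => rw [lie_smul]; exact Submodule.smul_mem _ c h }
  let b : Fin 4 → L := fun i => ⟨a i, Submodule.subset_span ⟨.of i, rfl⟩⟩
  have hb : ∀ w, ((lm b w : L) : A) = lm a w := fun w => by
    induction w with
    | ih1 i => rfl
    | ih2 x y hx hy => exact (LieSubalgebra.coe_bracket ..).trans (congrArg₂ _ hx hy)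
  refine ⟨L, inferInstance, inferInstance, b, ?_, ⟨fun l => poly a (relOf 0 []
    (((1, 1), []) :: xc l)) = 0, h2.comp ((pr_relOf 0).comp (Primrec.const [])
      (Primrec.list_cons.comp (Primrec.const _) pr_xc)), fun l => ?_⟩, ?_⟩
  · refine (Submodule.span_range_subtype_eq_top_iff (L : Submodule ℚ A)
      (s := lm a) fun w => hb w ▸ (lm b w).2).2 rfl ▸ ?_
    congr 2
    exact funext fun w => Subtype.ext (hb w)
  · have := poly_relOf_eq_zero (F := ℚ) a [] (((1, 1), []) :: xc (l.map fun t => (t.1, cw t.2)))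
    rw [ringChar.eq_zero] at this
    have e := map_list_sum L.incl (l.map fun t => ((t.1.1 : ℚ) / (t.1.2 : ℚ)) • lm b t.2)
    beta_reduce
    rw [this, combVal, List.map_cons, List.sum_cons, ← combVal, combVal_xc,
      ← map_eq_zero_iff L.incl Subtype.val_injective, e]
    simp [comp_def, poly_xp, hb]
  intro H _ _ m π R hπ hk S _ _ hS φ ψ hi
  obtain ⟨hι, g, hs, hz⟩ := pres_lie π R hπ hk
  let Ψ := (UniversalEnvelopingAlgebra.ι ℚ).comp ψ
  have h0 : ∀ x, Ψ (φ x) = 0 → x = 0 := fun x h =>
    hi ((hι (h.trans (map_zero _).symm)).trans (by simp))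
  choose D t ht using fun y => (hs y).elim fun f h => clear (ev g) (x := y) (h ▸ lift_mem g f)
  let lb : List (Fin 4) → L := fun w => w.foldr (fun i s => ⁅b i, s⁆) (b 3)
  have hl : ∀ w, (lb w : A) = ev a (w ++ [3]) := fun w => by
    induction w with
    | nil => simp [lb, b]
    | cons i w ih =>
      change ⁅a i, (lb w : A)⁆ = _
      rw [ih, LieRing.of_associative_ring_bracket]
      simp [mul_assoc, hm]
  let sub : List (Fin 4) → Terms (Fin m) := fun w =>
    w.foldr (fun i s => br (t (Ψ (φ (b i)))) s) (t (Ψ (φ (b 3))))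
  have h6 : Primrec sub := Primrec.list_foldr Primrec.id (Primrec.const _) (pr_br.comp
    ((Primrec.dom_finite fun i => t (Ψ (φ (b i)))).comp
      (Primrec.fst.comp Primrec.snd)) (Primrec.snd.comp Primrec.snd)).to₂
  have h8 : ∀ i, poly g (t (Ψ (φ (b i)))) = Ψ (φ (((D (Ψ (φ (b i))) + 1 : ℕ) : ℚ) • b i)) :=
    fun i => by rw [map_smul, map_smul, Nat.cast_smul_eq_nsmul, ht, poly_eq_sg]
  have h7 : ∀ w, ∃ c : ℚ, c ≠ 0 ∧ poly g (sub w) = Ψ (φ (c • lb w)) := fun w => by
    induction w with
    | nil => exact ⟨_, by positivity, h8 3⟩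
    | cons i w ih =>
      obtain ⟨c, hc, ih⟩ := ih
      refine ⟨(D (Ψ (φ (b i))) + 1 : ℕ) * c, mul_ne_zero (by positivity) hc, ?_⟩
      refine (poly_br g _ (sub w)).trans ?_
      rw [ih, h8, ← Ψ.map_lie, ← φ.map_lie, smul_lie, lie_smul, smul_smul]
      rfl
  choose c hc h7 using h7
  have h9 : ∀ w, poly g (sub w) = 0 ↔ ev a (w ++ [3]) = 0 := fun w => by
    rw [h7, ← hl]
    exact ⟨fun h => by rw [(smul_eq_zero.1 (h0 _ h)).resolve_left (hc _)]; rfl,
      fun h => by rw [show lb w = 0 from Subtype.ext h, smul_zero, map_zero, map_zero]⟩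
  have h10 : ∀ k w, (fun z => ⁅poly g (t (Ψ (φ (b 0)))), z⁆)^[k] (poly g (sub w)) =
      poly g (sub (List.replicate k 0 ++ w)) := fun k w => by
    induction k with
    | zero => rfl
    | succ k ih => rw [iterate_succ_apply', ih, ← poly_br]; rfl
  have hE : ∀ i : Fin 4, Primrec fun n => sub (i :: List.replicate n 0) := fun i =>
    h6.comp (Primrec.list_cons.comp (Primrec.const i) (pr_replicate Primrec.id (Primrec.const 0)))
  refine core_lie g hs hz hS Ψ _ (fun h => ?_) (fun n => φ (c _ • lb (1 :: List.replicate n 0)))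
    (fun n => φ (c _ • lb (2 :: List.replicate n 0))) (fun n h => h3 n ?_) _ (h8 0) _ _ (hE 1)
    (hE 2) (fun n => h7 _) (fun n => h7 _)
    (fun n s h => ⟨c (2 :: List.replicate n 0) * s / c (1 :: List.replicate n 0), ?_⟩)
    fun n k h => ?_
  · have e : a 0 = 0 :=
      congrArg Subtype.val ((smul_eq_zero.1 (h0 _ h)).resolve_left (by positivity))
    exact h3 1 (by simp [wd, e])
  · exact (h9 (1 :: List.replicate n 0)).1 (by rw [h7, h, map_zero])
  · have e : lb (2 :: List.replicate n 0) = (s : ℚ) • lb (1 :: List.replicate n 0) :=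
      Subtype.ext ((hl _).trans ((h4 n s h).trans
        (congrArg _ (hl (1 :: List.replicate n 0)).symm)))
    rw [← map_smul, e, smul_smul, smul_smul, div_mul_cancel₀ _ (hc _)]
  · rw [← h8, ← h7, ← h7, h10, h10, h9, Ne, h9, List.append_assoc, List.append_assoc]
    exact ⟨(h5 n k h).1, (h5 n (k + 1) h.succ).2⟩

end Pool.Agent.Lib.MP_4d37d6_al.WP
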