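import Pool.Agent.Lib.MP_4d37d6_al.WP.Alg
import Pool.Agent.Lib.MP_4d37d6_al.Lie.PBW

/-!
The separation argument for simple subalgebras of finitely presented Lie algebras.
-/

set_option autoImplicit false

namespace Pool.Agent.Lib.MP_4d37d6_al.WP

open Function

attribute [local instance 100] LieRing.ofAssociativeRing

variable {α : Type}

/-- the commutator of two signed lists -/
def br (s t : Terms α) : Terms α :=
  act (s.map fun p => (p.1, p.2, [])) t ++
    act (List.replicate 1 (true, [], [])) (act (t.map fun p => (p.1, p.2, [])) s)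

theorem poly_br {T : Type*} [Ring T] (g : α → T) (s t : Terms α) :
    poly g (br s t) = ⁅poly g s, poly g t⁆ := by
  rw [br, poly_append, poly_scal, poly_left, poly_left, one_smul, LieRing.of_associative_ring_bracket,
    sub_eq_add_neg]

theorem pr_br [Primcodable α] : Primrec₂ (br (α := α)) := by
  have h : Primrec fun s : Terms α => s.map fun p => (p.1, p.2, ([] : List α)) :=
    Primrec.list_map Primrec.id ((Primrec.fst.comp Primrec.snd).pair
      ((Primrec.snd.comp Primrec.snd).pair (Primrec.const []))).to₂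
  exact Primrec.list_append.comp (pr_act.comp (h.comp Primrec.fst) Primrec.snd)
    (pr_act.comp (Primrec.const _) (pr_act.comp (h.comp Primrec.snd) Primrec.fst))

variable {U : Type*} [Ring U] [Algebra ℚ U] (g : α → U)

theorem exists_N (hs : Surjective (FreeAlgebra.lift ℚ g)) (t t' : Terms α) :
    ∃ N : Submodule ℚ (U × U), (poly g t, poly g t') ∈ N ∧
      (∀ y a b : U, (a, b) ∈ N → (⁅y, a⁆, ⁅y, b⁆) ∈ N) ∧ ∀ b, ((0 : U), b) ∈ N →
        ∃ (D : ℕ) (W : Wit α), poly g (ex [t] W) = 0 ∧ poly g (ex [t'] W) = (D + 1) • b := by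
  let g' : α → U × U := fun i => (g i, g i)
  have hg : ∀ l, ev g' l = (ev g l, ev g l) := fun l => by
    induction l with
    | nil => rfl
    | cons i l ih => simp [ih, g']
  refine ⟨Submodule.span ℚ (Set.range (tm g' fun i =>
    (poly g ([t].getD i []), poly g ([t'].getD i [])))),
    Submodule.subset_span ⟨(0, [], []), by simp [tm]⟩, fun y a b h => ?_, fun b h => ?_⟩
  · obtain ⟨f, rfl⟩ := hs y
    have h1 : FreeAlgebra.lift ℚ g' = (FreeAlgebra.lift ℚ g).prod (FreeAlgebra.lift ℚ g) := by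
      ext i <;> simp [g']
    have := mul_mem_tm g' _ f h
    rw [h1] at this
    exact Submodule.sub_mem _ this.1 this.2
  · obtain ⟨D, W, h1⟩ := clear _ h
    have h2 := congrArg (AddMonoidHom.fst U U) h1
    have h3 := congrArg (AddMonoidHom.snd U U) h1
    rw [map_sg] at h2 h3
    refine ⟨D, W, ?_, ?_⟩ <;> rw [poly_ex]
    · refine Eq.trans ?_ (h2.symm.trans (by simp))
      congr 1
      ext c
      simp [tm, hg]
    · refine Eq.trans ?_ h3.symm
      congr 1
      ext c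
      simp [tm, hg]

theorem core_lie [Primcodable α] (hs : Surjective (FreeAlgebra.lift ℚ g))
    (hz : Sig fun t => poly g t = 0) {S : Type*} [LieRing S] [LieAlgebra ℚ S]
    (hS : ∀ I : LieIdeal ℚ S, I = ⊥ ∨ I = ⊤) (Ψ : S →ₗ⁅ℚ⁆ U) (x : S) (hx : Ψ x ≠ 0)
    (u v : ℕ → S) (hu : ∀ n, u n ≠ 0) (X : Terms α) (hX : poly g X = Ψ x)
    (Ut Vt : ℕ → Terms α) (hU : Primrec Ut) (hV : Primrec Vt)
    (hUu : ∀ n, poly g (Ut n) = Ψ (u n)) (hVv : ∀ n, poly g (Vt n) = Ψ (v n))
    (hP : ∀ n s, PP n s → ∃ c : ℚ, v n = c • u n)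
    (hQ : ∀ n k, QQ n k → (fun w => ⁅Ψ x, w⁆)^[k] (Ψ (u n)) = 0 ∧
      (fun w => ⁅Ψ x, w⁆)^[k + 1] (Ψ (v n)) ≠ 0) : False := by
  have s1 : Sig fun n => ∃ w : ℕ × Terms α, poly g (br X w.2) = 0 ∧ poly g (br w.2 (Ut n) ++
      act (List.replicate (w.1 + 1) (true, [], [])) (br X (Vt n))) = 0 :=
    Sig.ex ((hz.comp (pr_br.comp (Primrec.const X) (Primrec.snd.comp Primrec.snd))).and
      (hz.comp (Primrec.list_append.comp
        (pr_br.comp (Primrec.snd.comp Primrec.snd) (hU.comp Primrec.fst))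
        (pr_scal (Primrec.fst.comp Primrec.snd)
          (pr_br.comp (Primrec.const X) (hV.comp Primrec.fst))))))
  have s2 : Sig fun n => ∃ w : ℕ × Wit α, poly g (ex [Ut n] w.2) = 0 ∧
      poly g (ex [Vt n] w.2 ++ act (List.replicate (w.1 + 1) (true, [], [])) X) = 0 :=
    Sig.ex ((hz.comp (pr_ex.comp (Primrec.list_cons.comp (hU.comp Primrec.fst) (Primrec.const []))
      (Primrec.snd.comp Primrec.snd))).and (hz.comp (Primrec.list_append.comp
        (pr_ex.comp (Primrec.list_cons.comp (hV.comp Primrec.fst) (Primrec.const []))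
          (Primrec.snd.comp Primrec.snd))
        (pr_scal (Primrec.fst.comp Primrec.snd) (Primrec.const X)))))
  refine inseparable s1 s2 (fun n => ?_) ?_ ?_
  · obtain ⟨N, h0, hN, hW⟩ := exists_N g hs (Ut n) (Vt n)
    rw [hUu, hVv] at h0
    have z0 : ((0 : U), (0 : U)) ∈ N := N.zero_mem
    let K : LieIdeal ℚ S :=
      { carrier := {b | ((0 : U), Ψ b) ∈ N}
        zero_mem' := by simpa using z0
        add_mem' := fun h h' => by simpa using N.add_mem h h'
        smul_mem' := fun c y h => by simpa using N.smul_mem c h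
        lie_mem := fun {y b} h => by simpa using hN (Ψ y) _ _ h }
    have hK : ∀ b, b ∈ K ↔ ((0 : U), Ψ b) ∈ N := fun b => Iff.rfl
    let L : LieIdeal ℚ S :=
      { carrier := {a | ∃ b, (Ψ a, Ψ b) ∈ N}
        zero_mem' := ⟨0, by simpa using z0⟩
        add_mem' := fun ⟨b, h⟩ ⟨b', h'⟩ => ⟨b + b', by simpa using N.add_mem h h'⟩
        smul_mem' := fun c y ⟨b, h⟩ => ⟨c • b, by simpa using N.smul_mem c h⟩
        lie_mem := fun {y a} ⟨b, h⟩ => ⟨⁅y, b⁆, by simpa using hN (Ψ y) _ _ h⟩ }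
    have hL : ∀ a, a ∈ L ↔ ∃ b, (Ψ a, Ψ b) ∈ N := fun b => Iff.rfl
    rcases hS K with h | h
    · rcases hS L with h' | h'
      · exact absurd (by simpa [h'] using (hL _).2 ⟨_, h0⟩) (hu n)
      obtain ⟨y, h1⟩ := (hL x).1 (by simp [h'])
      have h2 := hN (Ψ x) _ _ h1
      rw [lie_self, ← LieHom.map_lie, ← hK, h, LieSubmodule.mem_bot] at h2
      have h3 := N.add_mem (hN (Ψ x) _ _ h0) (hN (Ψ (u n)) _ _ h1)
      rw [Prod.mk_add_mk, ← lie_skew (Ψ (u n)) (Ψ x), add_neg_cancel, ← LieHom.map_lie,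
        ← LieHom.map_lie, ← map_add, ← hK, h, LieSubmodule.mem_bot, ← lie_skew (u n) y,
        add_neg_eq_zero] at h3
      obtain ⟨f, hf⟩ := hs (Ψ y)
      obtain ⟨D, t, ht⟩ := clear (ev g) (x := Ψ y) (hf ▸ lift_mem g f)
      refine Or.inl ⟨(D, t), ?_, ?_⟩
      · rw [poly_br, poly_eq_sg g t, ← ht, hX, lie_nsmul, ← LieHom.map_lie, h2, map_zero, smul_zero]
      · rw [poly_append, poly_scal, poly_br, poly_br, poly_eq_sg g t, ← ht, hX, hUu, hVv, nsmul_lie,
          ← LieHom.map_lie, ← LieHom.map_lie, h3, add_neg_cancel]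
    · obtain ⟨D, W, h1, h2⟩ := hW _ ((hK x).1 (by simp [h]))
      exact Or.inr ⟨(D, W), h1, by rw [poly_append, poly_scal, h2, hX, add_neg_cancel]⟩
  · rintro n k h ⟨⟨D, t⟩, h1, h2⟩
    obtain ⟨h3, h4⟩ := hQ n k h
    rw [poly_br, hX] at h1
    rw [poly_append, poly_scal, poly_br, poly_br, hX, hUu, hVv, add_neg_eq_zero] at h2
    have h5 : ∀ j : ℕ, ⁅poly g t, (fun w => ⁅Ψ x, w⁆)^[j] (Ψ (u n))⁆ =
        (D + 1) • (fun w => ⁅Ψ x, w⁆)^[j + 1] (Ψ (v n)) := fun j => by
      induction j with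
      | zero => exact h2
      | succ j ih =>
        rw [iterate_succ_apply', iterate_succ_apply' _ (j + 1), ← lie_nsmul, ← ih,
          leibniz_lie (Ψ x), h1, zero_lie, zero_add]
    have h6 := h5 k
    rw [h3, lie_zero] at h6
    exact h4 (succ_smul_eq_zero.1 h6.symm)
  · rintro n s h ⟨⟨D, W⟩, h1, h2⟩
    obtain ⟨c, h3⟩ := hP n s h
    have h4 : poly g (ex [Vt n] W) = c • poly g (ex [Ut n] W) := by
      rw [poly_ex, poly_ex]
      refine Eq.trans ?_ (map_sg _ (DistribSMul.toAddMonoidHom U c) W).symm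
      congr 1
      ext ⟨_ | i, l⟩ <;> simp [tm, hUu, hVv, h3]
    rw [poly_append, poly_scal, h4, h1, smul_zero, zero_add, neg_eq_zero, hX,
      succ_smul_eq_zero] at h2
    exact hx h2

theorem pres_lie {H : Type*} [LieRing H] [LieAlgebra ℚ H] {m : ℕ}
    (π : FreeLieAlgebra ℚ (Fin m) →ₗ⁅ℚ⁆ H) (R : Finset (FreeLieAlgebra ℚ (Fin m)))
    (hs : Surjective π) (hk : π.ker = LieSubmodule.lieSpan ℚ (FreeLieAlgebra ℚ (Fin m))
      (R : Set (FreeLieAlgebra ℚ (Fin m)))) :
    Injective (UniversalEnvelopingAlgebra.ι ℚ : H → _) ∧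
      ∃ g : Fin m → UniversalEnvelopingAlgebra ℚ H, Surjective (FreeAlgebra.lift ℚ g) ∧
        Sig fun t => poly g t = 0 := by
  constructor
  · obtain ⟨κ, a, -, h1, h2⟩ := exists_linearIndependent' ℚ π
    obtain ⟨_, -⟩ := exists_wellFoundedLT κ
    exact Lie.PBW.ι_injective (Module.Basis.mk h2 (by rw [h1, hs.range_eq, Submodule.span_univ]))
  let g : Fin m → UniversalEnvelopingAlgebra ℚ H := fun i =>
    UniversalEnvelopingAlgebra.ι ℚ (π (FreeLieAlgebra.of ℚ i))
  let σ : FreeLieAlgebra ℚ (Fin m) →ₗ⁅ℚ⁆ FA (Fin m) := FreeLieAlgebra.lift ℚ (FreeAlgebra.ι ℚ)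
  have h1 : ∀ y, FreeAlgebra.lift ℚ g (σ y) = UniversalEnvelopingAlgebra.ι ℚ (π y) := by
    have : (FreeAlgebra.lift ℚ g).toLieHom.comp σ = (UniversalEnvelopingAlgebra.ι ℚ).comp π :=
      FreeLieAlgebra.hom_ext fun i => by simp [σ, g]
    exact DFunLike.congr_fun this
  choose D t ht using fun y => clear (ev (FreeAlgebra.ι ℚ)) (x := σ y) (by rw [span_ev]; trivial)
  refine ⟨g, ?_, sig_zero g (R.toList.map t) (fun r hr => ?_) fun J hJ hR x hx => ?_⟩
  · rw [← AlgHom.range_eq_top, eq_top_iff, ← Lie.PBW.adjoin_ι, Algebra.adjoin_le_iff]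
    rintro _ ⟨y, rfl⟩
    obtain ⟨y, rfl⟩ := hs y
    exact ⟨σ y, h1 y⟩
  · obtain ⟨y, hy, rfl⟩ := List.mem_map.1 hr
    have : y ∈ π.ker := hk ▸ LieSubmodule.subset_lieSpan (Finset.mem_toList.1 hy)
    rw [← lift_poly, poly_eq_sg, ← ht, map_nsmul, h1, LieHom.mem_ker.1 this, map_zero, smul_zero]
  let I : TwoSidedIdeal (FA (Fin m)) := TwoSidedIdeal.mk' J J.zero_mem J.add_mem J.neg_mem
    (fun h => (hJ _ _ h).1) fun h => (hJ _ _ h).2
  let q := RingCon.mkₐ ℚ I.ringCon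
  have hq : ∀ z, q z = 0 ↔ z ∈ J := fun z => by
    have h : z ∈ I ↔ z ∈ J := TwoSidedIdeal.mem_mk' ..
    rw [← h]
    conv_rhs => rw [← TwoSidedIdeal.ker_ringCon_mk' I, TwoSidedIdeal.mem_ker]
    rfl
  let τ := q.toLieHom.comp σ
  have h2 : π.ker ≤ τ.ker := by
    rw [hk, LieSubmodule.lieSpan_le]
    intro r hr
    have := hR _ (List.mem_map_of_mem (Finset.mem_toList.2 hr))
    rw [poly_eq_sg, ← ht, ← Nat.cast_smul_eq_nsmul ℚ, J.smul_mem_iff (by positivity)] at this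
    exact LieHom.mem_ker.2 ((hq _).2 this)
  have h3 : ∀ y, τ (surjInv hs (π y)) = τ y := fun y => by
    rw [← sub_eq_zero, ← map_sub, ← LieHom.mem_ker]
    exact h2 (by rw [LieHom.mem_ker, map_sub, surjInv_eq hs, sub_self])
  let τ' : H →ₗ⁅ℚ⁆ I.ringCon.Quotient :=
    { toFun := fun h => τ (surjInv hs h)
      map_add' := fun a b => by
        obtain ⟨a, rfl⟩ := hs a
        obtain ⟨b, rfl⟩ := hs b
        rw [← map_add π, h3, h3, h3, map_add]
      map_smul' := fun c a => by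
        obtain ⟨a, rfl⟩ := hs a
        rw [← map_smul π, h3, h3, map_smul, RingHom.id_apply]
      map_lie' := fun {a b} => by
        obtain ⟨a, rfl⟩ := hs a
        obtain ⟨b, rfl⟩ := hs b
        simp only [← π.map_lie, h3, τ.map_lie] }
  have h4 : (UniversalEnvelopingAlgebra.lift ℚ τ').comp (FreeAlgebra.lift ℚ g) = q := by
    ext i
    simp only [comp_apply, AlgHom.coe_comp, FreeAlgebra.lift_ι_apply, g,
      UniversalEnvelopingAlgebra.lift_ι_apply]
    exact (h3 _).trans (by simp [τ, σ])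
  rw [← hq, ← h4, AlgHom.comp_apply, hx, map_zero]

end Pool.Agent.Lib.MP_4d37d6_al.WP
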