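import Pool.Agent.Lib.MP_4d37d6_al.WP.Alg

/-!
The algebra with decidable word problem lies in no simple subalgebra of a finitely presented one.
-/

set_option autoImplicit false

namespace Pool.Agent.Lib.MP_4d37d6_al.WP

open Function

theorem pres_unit {H : Type*} [NonUnitalRing H] [Module ℚ H] [IsScalarTower ℚ H H]
    [SMulCommClass ℚ H H] {m : ℕ} (π : MonoidAlgebra ℚ (FreeSemigroup (Fin m)) →ₙₐ[ℚ] H)
    (R : Finset (MonoidAlgebra ℚ (FreeSemigroup (Fin m)))) (hs : Surjective π)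
    (hk : ∀ x, π x = 0 ↔ ∀ I : TwoSidedIdeal (MonoidAlgebra ℚ (FreeSemigroup (Fin m))),
      (∀ (c : ℚ) (y : MonoidAlgebra ℚ (FreeSemigroup (Fin m))), y ∈ I → c • y ∈ I) →
        (∀ r ∈ R, r ∈ I) → x ∈ I) :
    ∃ g : Fin m → Unitization ℚ H, Surjective (FreeAlgebra.lift ℚ g) ∧
      Sig fun t => poly g t = 0 := by
  let g : Fin m → Unitization ℚ H := fun i => π (MonoidAlgebra.single (FreeSemigroup.of i) 1)
  let σ : MonoidAlgebra ℚ (FreeSemigroup (Fin m)) →ₙₐ[ℚ] FA (Fin m) :=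
    MonoidAlgebra.liftMagma ℚ (FreeSemigroup.lift (FreeAlgebra.ι ℚ))
  have h0 : ∀ i, σ (MonoidAlgebra.single (FreeSemigroup.of i) 1) = FreeAlgebra.ι ℚ i := fun i => by
    simp [σ]
  have h1 : ∀ y, FreeAlgebra.lift ℚ g (σ y) = (π y : Unitization ℚ H) := by
    have : (FreeAlgebra.lift ℚ g).toNonUnitalAlgHom.comp σ =
        (Unitization.inrNonUnitalAlgHom ℚ H).comp π := by
      refine MonoidAlgebra.nonUnitalAlgHom_ext' ℚ (FreeSemigroup.hom_ext (funext fun j => ?_))
      change FreeAlgebra.lift ℚ g (σ (MonoidAlgebra.single (FreeSemigroup.of j) 1)) = g j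
      rw [h0, FreeAlgebra.lift_ι_apply]
    exact DFunLike.congr_fun this
  have h2 : ∀ f : FA (Fin m), ∃ (c : ℚ) (y : _), f = algebraMap ℚ _ c + σ y := fun f => by
    induction f using FreeAlgebra.induction with
    | grade0 c => exact ⟨c, 0, by simp⟩
    | grade1 i => exact ⟨0, _, by rw [h0, map_zero, zero_add]⟩
    | mul a b ha hb =>
      obtain ⟨c, y, rfl⟩ := ha
      obtain ⟨d, z, rfl⟩ := hb
      refine ⟨c * d, c • z + d • y + y * z, ?_⟩
      rw [add_mul, mul_add, mul_add, ← Algebra.commutes d (σ y), ← Algebra.smul_def c (σ z),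
        ← Algebra.smul_def d (σ y), map_add, map_add, map_smul, map_smul, map_mul, map_mul]
      abel
    | add a b ha hb =>
      obtain ⟨c, y, rfl⟩ := ha
      obtain ⟨d, z, rfl⟩ := hb
      exact ⟨c + d, y + z, by rw [map_add, map_add]; abel⟩
  choose D t ht using fun y => clear (ev (FreeAlgebra.ι ℚ)) (x := σ y) (by rw [span_ev]; trivial)
  refine ⟨g, fun y => ?_, sig_zero g (R.toList.map t) (fun r hr => ?_) fun J hJ hR x hx => ?_⟩
  · obtain ⟨z, hz⟩ := hs y.snd
    exact ⟨algebraMap ℚ _ y.fst + σ z, by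
      rw [map_add, h1, hz, AlgHom.commutes]
      exact y.inl_fst_add_inr_snd_eq⟩
  · obtain ⟨y, hy, rfl⟩ := List.mem_map.1 hr
    rw [← lift_poly, poly_eq_sg, ← ht, map_nsmul, h1,
      (hk y).2 fun I _ h => h y (Finset.mem_toList.1 hy)]
    simp
  · obtain ⟨c, y, rfl⟩ := h2 x
    rw [map_add, h1, AlgHom.commutes] at hx
    have h3 : c = 0 := by
      simpa [Unitization.algebraMap_eq_inl] using congrArg (fun z => z.fst) hx
    have h4 : π y = 0 := by
      simpa [Unitization.algebraMap_eq_inl] using congrArg (fun z => z.snd) hx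
    let I : TwoSidedIdeal (MonoidAlgebra ℚ (FreeSemigroup (Fin m))) := TwoSidedIdeal.mk'
      {y | σ y ∈ J} (by simp) (fun h h' => by simpa using J.add_mem h h')
      (fun h => by simpa using h) (fun {a b} h => by simpa using (hJ (σ a) _ h).1)
      (fun {a b} h => by simpa using (hJ (σ b) _ h).2)
    have h5 : ∀ y, y ∈ I ↔ σ y ∈ J := fun y => TwoSidedIdeal.mem_mk' ..
    rw [h3, map_zero, zero_add, ← h5]
    refine (hk y).1 h4 I (fun c y h => (h5 _).2 ?_) fun r hr => (h5 _).2 ?_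
    · rw [map_smul]
      exact J.smul_mem c ((h5 _).1 h)
    · have := hR _ (List.mem_map_of_mem (Finset.mem_toList.2 hr))
      rwa [poly_eq_sg, ← ht, ← Nat.cast_smul_eq_nsmul ℚ, J.smul_mem_iff (by positivity)] at this

theorem ev_wd {T : Type*} [Ring T] (a : Fin 4 → T) (k : ℕ) (i : Fin 4) (l : List (Fin 4)) :
    ev a (wd k i l) = a 0 ^ k * ev a (wd 0 i l) := by
  induction k with
  | zero => simp
  | succ k ih => rw [wd_succ, ev_cons, ih, pow_succ', mul_assoc]

theorem main : ∃ (A : Type) (_ : Ring A) (_ : Algebra ℚ A) (a : Fin 4 → A),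
    Submodule.span ℚ (Set.range (ev a)) = ⊤ ∧
    PrimrecPred (fun L : Comb 4 => combVal ℚ a L = 0) ∧
    ∀ {α : Type} [Primcodable α] {U : Type*} [Ring U] [Algebra ℚ U] (g : α → U),
      Surjective (FreeAlgebra.lift ℚ g) → Sig (fun t => poly g t = 0) →
      ∀ {S : Type*} [NonUnitalRing S] [Module ℚ S],
        (∀ I : TwoSidedIdeal S, (∀ (c : ℚ) (y : S), y ∈ I → c • y ∈ I) → I = ⊥ ∨ I = ⊤) →
        ∀ (φ : A →ₙₐ[ℚ] S) (Ψ : S →ₙₐ[ℚ] U), ¬ Injective fun x => Ψ (φ x) := by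
  obtain ⟨A, _, _, a, h1, h2, h3, h4, h5, -⟩ := exists_alg
  refine ⟨A, inferInstance, inferInstance, a, h1, (h2.comp ((pr_relOf 0).comp (Primrec.const [])
    (Primrec.list_cons.comp (Primrec.const ((1, 1), [])) Primrec.id))).of_eq fun L => ?_, ?_⟩
  · have := poly_relOf_eq_zero (F := ℚ) a [] (((1, 1), []) :: L)
    rw [ringChar.eq_zero] at this
    rw [id, this]
    simp [combVal]
  intro α _ U _ _ g hs hz S _ _ hS φ Ψ hi
  have h0 : ∀ x, Ψ (φ x) = 0 → x = 0 := fun x h => hi (by simpa using h)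
  choose D t ht using fun y : U => (hs y).elim fun f h => clear (ev g) (x := y) (h ▸ lift_mem g f)
  let sub : List (Fin 4) → Terms α := fun w => w.foldr
    (fun i s => act ((t (Ψ (φ (a i)))).map fun p => (p.1, p.2, [])) s) (t (Ψ (φ 1)))
  have h6 : Primrec sub := Primrec.list_foldr Primrec.id (Primrec.const _) (pr_act.comp
    ((Primrec.dom_finite fun i => (t (Ψ (φ (a i)))).map fun p => (p.1, p.2, [])).comp
      (Primrec.fst.comp Primrec.snd)) (Primrec.snd.comp Primrec.snd)).to₂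
  have h7 : ∀ w, ∃ c : ℚ, c ≠ 0 ∧ poly g (sub w) = Ψ (φ (c • ev a w)) := fun w => by
    induction w with
    | nil =>
      refine ⟨(D (Ψ (φ 1)) + 1 : ℕ), by positivity, ?_⟩
      rw [map_smul, map_smul, Nat.cast_smul_eq_nsmul, ev_nil, ht]
      rfl
    | cons i w ih =>
      obtain ⟨c, hc, ih⟩ := ih
      refine ⟨(D (Ψ (φ (a i))) + 1 : ℕ) * c, mul_ne_zero (by positivity) hc, ?_⟩
      refine (poly_left g _ (sub w)).trans ?_
      rw [ih, poly_eq_sg, ← ht, ← Nat.cast_smul_eq_nsmul ℚ, ← map_smul, ← map_smul, ← map_mul,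
        ← map_mul, smul_mul_smul_comm, ev_cons]
  choose c hc h7 using h7
  have hE : Primrec wE := pr_wd 3 Primrec.id (Primrec.const _)
  refine core_sep g hs hz hS Ψ (φ 1) (fun h => h3 0 ?_) (fun n => φ (c (wU n 0) • ev a (wU n 0)))
    (fun n => φ (c (wV n 0) • ev a (wV n 0))) (fun n h => h3 n ?_)
    (fun n => by rw [← map_mul, mul_one]) _ _ (h6.comp (pr_wd 1 (Primrec.const 0) hE))
    (h6.comp (pr_wd 2 (Primrec.const 0) hE)) (fun n => h7 _) (fun n => h7 _)
    (fun n s h => ⟨c (wV n 0) * s / c (wU n 0), ?_⟩) fun n k h => ⟨φ (a 0 ^ k), ?_, fun h' => ?_⟩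
  · rw [← mul_one (ev a _), h0 1 h, mul_zero]
  · exact (smul_eq_zero.1 (h0 _ (by rw [h, map_zero]))).resolve_left (hc _)
  · rw [← map_smul, h4 n s h, smul_smul, smul_smul, div_mul_cancel₀ _ (hc _)]
  · rw [← map_mul, mul_smul_comm, ← ev_wd, (h5 n k h).1, smul_zero, map_zero]
  · rw [← map_mul, mul_smul_comm, ← ev_wd] at h'
    exact (h5 n k h).2 ((smul_eq_zero.1 (h0 _ h')).resolve_left (hc _))

end Pool.Agent.Lib.MP_4d37d6_al.WP
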