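import Pool.Agent.Lib.MP_4d37d6_al.WP.Free

/-!
In a simple subalgebra of a finitely presented algebra, linear dependence over the centroid can be
separated from annihilation by an algorithm.
-/

set_option autoImplicit false

namespace Pool.Agent.Lib.MP_4d37d6_al.WP

open Function

variable {α : Type}

abbrev Wit (α : Type) := List (Bool × ℕ × List α × List α)

/-- a consequence of the list `R` -/
def ex (R : List (Terms α)) (W : Wit α) : Terms α :=
  W.flatMap fun w => act [(w.1, w.2.2)] (R.getD w.2.1 [])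

theorem pr_ex [Primcodable α] : Primrec₂ (ex (α := α)) :=
  Primrec.list_flatMap Primrec.snd (pr_act.comp
    (Primrec.list_cons.comp ((Primrec.fst.comp Primrec.snd).pair
      (Primrec.snd.comp (Primrec.snd.comp Primrec.snd))) (Primrec.const []))
    ((Primrec.list_getD []).comp (Primrec.fst.comp Primrec.fst)
      (Primrec.fst.comp (Primrec.snd.comp Primrec.snd)))).to₂

/-- two-sided multiples -/
def tm {T : Type*} [Ring T] (g : α → T) (r : ℕ → T) (c : ℕ × List α × List α) : T :=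
  ev g c.2.1 * r c.1 * ev g c.2.2

theorem poly_ex {T : Type*} [Ring T] (g : α → T) (R : List (Terms α)) (W : Wit α) :
    poly g (ex R W) = sg (tm g fun i => poly g (R.getD i [])) W := by
  induction W with
  | nil => rfl
  | cons w W ih =>
    rw [ex, List.flatMap_cons, poly_append, ← ex, ih, poly_act]
    obtain ⟨_ | _, c⟩ := w <;> simp [tm]

variable {U : Type*} [Ring U] [Algebra ℚ U] (g : α → U)

theorem lift_poly (t : Terms α) :
    FreeAlgebra.lift ℚ g (poly (FreeAlgebra.ι ℚ) t) = poly g t := by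
  rw [map_poly]
  congr 1
  ext i
  simp

theorem lift_mem (f : FA α) :
    FreeAlgebra.lift ℚ g f ∈ Submodule.span ℚ (Set.range (ev g)) := by
  have h : f ∈ Submodule.span ℚ (Set.range (ev (FreeAlgebra.ι ℚ (X := α)))) := by
    rw [span_ev]; trivial
  have h2 := Submodule.apply_mem_span_image_of_mem_span (FreeAlgebra.lift ℚ g).toLinearMap h
  refine Submodule.span_mono ?_ h2
  rintro _ ⟨_, ⟨l, rfl⟩, rfl⟩
  exact ⟨l, by simpa using (lift_poly g [(false, l)]).symm⟩

theorem mul_mem_tm (r : ℕ → U) (f : FA α) {x : U} (hx : x ∈ Submodule.span ℚ (Set.range (tm g r))) :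
    FreeAlgebra.lift ℚ g f * x ∈ Submodule.span ℚ (Set.range (tm g r)) ∧
      x * FreeAlgebra.lift ℚ g f ∈ Submodule.span ℚ (Set.range (tm g r)) := by
  have h1 := Submodule.mul_mem_mul (lift_mem g f) hx
  have h2 := Submodule.mul_mem_mul hx (lift_mem g f)
  rw [Submodule.span_mul_span] at h1 h2
  refine ⟨Submodule.span_mono ?_ h1, Submodule.span_mono ?_ h2⟩
  · rintro _ ⟨_, ⟨l, rfl⟩, _, ⟨c, rfl⟩, rfl⟩
    exact ⟨(c.1, l ++ c.2.1, c.2.2), by simp [tm, mul_assoc]⟩
  · rintro _ ⟨_, ⟨c, rfl⟩, _, ⟨l, rfl⟩, rfl⟩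
    exact ⟨(c.1, c.2.1, c.2.2 ++ l), by simp [tm, mul_assoc]⟩

theorem succ_smul_eq_zero {V : Type*} [AddCommGroup V] [Module ℚ V] {D : ℕ} {x : V} :
    (D + 1) • x = 0 ↔ x = 0 := by
  rw [← Nat.cast_smul_eq_nsmul ℚ, smul_eq_zero, or_iff_right (by positivity)]

variable [Primcodable α]

theorem pr_scal {β : Type} [Primcodable β] {D : β → ℕ} {t : β → Terms α} (hD : Primrec D)
    (ht : Primrec t) : Primrec fun b => act (List.replicate (D b + 1) (true, [], [])) (t b) :=
  pr_act.comp (pr_replicate (Primrec.succ.comp hD) (Primrec.const _)) ht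

theorem sig_zero (R : List (Terms α)) (h0 : ∀ r ∈ R, poly g r = 0)
    (h1 : ∀ J : Submodule ℚ (FA α), (∀ y, ∀ x ∈ J, y * x ∈ J ∧ x * y ∈ J) →
      (∀ r ∈ R, poly (FreeAlgebra.ι ℚ) r ∈ J) → ∀ x, FreeAlgebra.lift ℚ g x = 0 → x ∈ J) :
    Sig fun t => poly g t = 0 := by
  classical
  have h2 : Sig fun t : Terms α => ∃ w : ℕ × Wit α, poly (FreeAlgebra.ι ℚ)
      (ex R w.2 ++ act (List.replicate (w.1 + 1) (true, [], [])) t) = 0 :=
    Sig.ex (Sig.of_prim (pr_free.comp (Primrec.list_append.comp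
      (pr_ex.comp (Primrec.const R) (Primrec.snd.comp Primrec.snd))
      (pr_scal (Primrec.fst.comp Primrec.snd) Primrec.fst))))
  refine h2.of_eq fun t => ⟨fun ⟨⟨D, W⟩, h⟩ => ?_, fun h => ?_⟩
  · have h3 := congrArg (FreeAlgebra.lift ℚ g) h
    have h4 : (tm g fun i => poly g (R.getD i [])) = fun _ => 0 := funext fun c => by
      have : poly g (R.getD c.1 []) = 0 := by
        rcases lt_or_ge c.1 R.length with e | e
        · rw [List.getD_eq_getElem _ _ e]
          exact h0 _ (List.getElem_mem e)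
        · rw [List.getD_eq_default _ _ e, poly_nil]
      rw [tm, this, mul_zero, zero_mul]
    rw [lift_poly, map_zero, poly_append, poly_ex, poly_scal, h4] at h3
    simpa [sg, -nsmul_eq_mul, succ_smul_eq_zero] using h3
  · obtain ⟨D, W, h3⟩ := clear _ (h1 (Submodule.span ℚ (Set.range (tm (FreeAlgebra.ι ℚ)
      fun i => poly (FreeAlgebra.ι ℚ) (R.getD i [])))) (fun y x hx => by
        have e : FreeAlgebra.lift ℚ (FreeAlgebra.ι ℚ) = AlgHom.id ℚ (FA α) := by ext; simp
        have := mul_mem_tm (FreeAlgebra.ι ℚ) _ y hx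
        rwa [e] at this) (fun r hr => by
        obtain ⟨i, hi, rfl⟩ := List.getElem_of_mem hr
        exact Submodule.subset_span ⟨(i, [], []), by simp [tm, hi]⟩)
      (poly (FreeAlgebra.ι ℚ) t) (by rw [lift_poly, h]))
    exact ⟨(D, W), by rw [poly_append, poly_ex, poly_scal, h3, add_neg_cancel]⟩

theorem core_sep (hs : Surjective (FreeAlgebra.lift ℚ g)) (hz : Sig fun t => poly g t = 0)
    {S : Type*} [NonUnitalRing S] [Module ℚ S]
    (hS : ∀ I : TwoSidedIdeal S, (∀ (c : ℚ) (y : S), y ∈ I → c • y ∈ I) → I = ⊥ ∨ I = ⊤)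
    (Ψ : S →ₙₐ[ℚ] U) (e : S) (he : Ψ e ≠ 0) (u v : ℕ → S) (hu : ∀ n, u n ≠ 0)
    (hue : ∀ n, u n * e = u n) (Ut Vt : ℕ → Terms α) (hU : Primrec Ut) (hV : Primrec Vt)
    (hUu : ∀ n, poly g (Ut n) = Ψ (u n)) (hVv : ∀ n, poly g (Vt n) = Ψ (v n))
    (hP : ∀ n s, PP n s → ∃ c : ℚ, v n = c • u n)
    (hQ : ∀ n k, QQ n k → ∃ y : S, y * u n = 0 ∧ Ψ (y * v n) ≠ 0) : False := by
  have hc : ∀ y : U, ∃ (D : ℕ) (t : Terms α), (D + 1) • y = poly g t := fun y => by
    obtain ⟨f, rfl⟩ := hs y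
    exact clear _ (lift_mem g f)
  obtain ⟨D₀, E, hE⟩ := hc (Ψ e)
  have s1 : Sig fun n => ∃ w : ℕ × Terms α, poly g (act (w.2.map fun p => (p.1, [], p.2)) (Ut n) ++
      act (List.replicate (w.1 + 1) (true, [], [])) (Vt n)) = 0 :=
    Sig.ex (hz.comp (Primrec.list_append.comp (pr_act.comp
      (Primrec.list_map (Primrec.snd.comp Primrec.snd) ((Primrec.fst.comp Primrec.snd).pair
        ((Primrec.const []).pair (Primrec.snd.comp Primrec.snd))).to₂) (hU.comp Primrec.fst))
      (pr_scal (Primrec.fst.comp Primrec.snd) (hV.comp Primrec.fst))))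
  have s2 : Sig fun n => ∃ w : ℕ × Wit α, poly g (ex [Ut n] w.2) = 0 ∧
      poly g (ex [Vt n] w.2 ++ act (List.replicate (w.1 + 1) (true, [], [])) E) = 0 :=
    Sig.ex ((hz.comp (pr_ex.comp (Primrec.list_cons.comp (hU.comp Primrec.fst) (Primrec.const []))
      (Primrec.snd.comp Primrec.snd))).and (hz.comp (Primrec.list_append.comp
        (pr_ex.comp (Primrec.list_cons.comp (hV.comp Primrec.fst) (Primrec.const []))
          (Primrec.snd.comp Primrec.snd))
        (pr_scal (Primrec.fst.comp Primrec.snd) (Primrec.const E)))))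
  refine inseparable s1 s2 (fun n => ?_) ?_ ?_
  · let g' : α → U × U := fun i => (g i, g i)
    let N := Submodule.span ℚ (Set.range (tm g' fun i =>
      (poly g ([Ut n].getD i []), poly g ([Vt n].getD i []))))
    have hg : ∀ l, ev g' l = (ev g l, ev g l) := fun l => by
      induction l with
      | nil => rfl
      | cons i l ih => simp [ih, g']
    have hN : ∀ (y a b : U), (a, b) ∈ N → (y * a, y * b) ∈ N ∧ (a * y, b * y) ∈ N :=
      fun y a b h => by
        obtain ⟨f, rfl⟩ := hs y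
        have h1 : FreeAlgebra.lift ℚ g' = (FreeAlgebra.lift ℚ g).prod (FreeAlgebra.lift ℚ g) := by
          ext i <;> simp [g']
        have := mul_mem_tm g' _ f h
        rwa [h1] at this
    have h0 : (Ψ (u n), Ψ (v n)) ∈ N := Submodule.subset_span ⟨(0, [], []), by simp [tm, hUu, hVv]⟩
    let K : TwoSidedIdeal S := TwoSidedIdeal.mk' {b | ((0 : U), Ψ b) ∈ N}
      (by simpa using show ((0 : U), (0 : U)) ∈ N from N.zero_mem)
      (fun h h' => by simpa using N.add_mem h h')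
      (fun h => by simpa using N.neg_mem h)
      (fun {x y} h => by simpa using (hN (Ψ x) _ _ h).1)
      (fun {x y} h => by simpa using (hN (Ψ y) _ _ h).2)
    have hK : ∀ b, b ∈ K ↔ ((0 : U), Ψ b) ∈ N := fun b => TwoSidedIdeal.mem_mk' ..
    let L : TwoSidedIdeal S := TwoSidedIdeal.mk' {a | ∃ b, (Ψ a, Ψ b) ∈ N}
      ⟨0, by simpa using show ((0 : U), (0 : U)) ∈ N from N.zero_mem⟩
      (fun ⟨b, h⟩ ⟨b', h'⟩ => ⟨b + b', by simpa using N.add_mem h h'⟩)
      (fun ⟨b, h⟩ => ⟨-b, by simpa using N.neg_mem h⟩)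
      (fun {x y} ⟨b, h⟩ => ⟨x * b, by simpa using (hN (Ψ x) _ _ h).1⟩)
      (fun {x y} ⟨b, h⟩ => ⟨b * y, by simpa using (hN (Ψ y) _ _ h).2⟩)
    have hL : ∀ a, a ∈ L ↔ ∃ b, (Ψ a, Ψ b) ∈ N := fun b => TwoSidedIdeal.mem_mk' ..
    rcases hS K fun c y h => (hK _).2 (by simpa using N.smul_mem c ((hK _).1 h)) with h | h
    · rcases hS L fun c y h => ((hL _).1 h).elim fun b h =>
        (hL _).2 ⟨c • b, by simpa using N.smul_mem c h⟩ with h' | h'
      · exact absurd (by simpa [h'] using (hL _).2 ⟨_, h0⟩) (hu n)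
      obtain ⟨z, h1⟩ := (hL e).1 (by simp [h'])
      have h2 := N.sub_mem h0 (hN (Ψ (u n)) _ _ h1).1
      rw [← map_mul, ← map_mul, hue, Prod.mk_sub_mk, sub_self, ← map_sub, ← hK, h,
        TwoSidedIdeal.mem_bot, sub_eq_zero] at h2
      obtain ⟨D, t, ht⟩ := hc (Ψ z)
      refine Or.inl ⟨(D, t), ?_⟩
      rw [poly_append, poly_right, poly_scal, ← ht, hUu, hVv, h2, map_mul, mul_smul_comm,
        add_neg_cancel]
    · obtain ⟨D, W, h1⟩ := clear _ (N.smul_mem ((D₀ + 1 : ℕ) : ℚ) ((hK e).1 (by simp [h])))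
      have h2 := congrArg (AddMonoidHom.fst U U) h1
      have h3 := congrArg (AddMonoidHom.snd U U) h1
      rw [map_sg] at h2 h3
      refine Or.inr ⟨(D, W), ?_, ?_⟩
      · rw [poly_ex]
        refine Eq.trans ?_ (h2.symm.trans (by simp))
        congr 1
        ext c
        simp [tm, hg]
      · rw [poly_append, poly_ex, poly_scal, ← hE, add_neg_eq_zero,
          ← Nat.cast_smul_eq_nsmul ℚ (D₀ + 1)]
        refine Eq.trans ?_ h3.symm
        congr 1
        ext c
        simp [tm, hg]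
  · rintro n k h ⟨⟨D, t⟩, h1⟩
    obtain ⟨y, h2, h3⟩ := hQ n k h
    rw [poly_append, poly_right, poly_scal, hUu, hVv, add_neg_eq_zero] at h1
    have h4 := congrArg (Ψ y * ·) h1
    simp only [← mul_assoc, ← map_mul, h2, map_zero, zero_mul, mul_smul_comm] at h4
    exact h3 (succ_smul_eq_zero.1 h4.symm)
  · rintro n s h ⟨⟨D, W⟩, h1, h2⟩
    obtain ⟨c, h3⟩ := hP n s h
    have h4 : poly g (ex [Vt n] W) = c • poly g (ex [Ut n] W) := by
      rw [poly_ex, poly_ex]
      refine Eq.trans ?_ (map_sg _ (DistribSMul.toAddMonoidHom U c) W).symm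
      congr 1
      ext ⟨_ | i, l⟩ <;> simp [tm, hUu, hVv, h3]
    rw [poly_append, poly_scal, h4, h1, smul_zero, zero_add, neg_eq_zero, ← hE,
      succ_smul_eq_zero, succ_smul_eq_zero] at h2
    exact he h2

end Pool.Agent.Lib.MP_4d37d6_al.WP
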