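import Pool.Agent.Lib.MP_4d37d6_al.Unital

/-!
Projections of primitive recursive predicates and a pair of recursively inseparable sets.
-/

set_option autoImplicit false

namespace Pool.Agent.Lib.MP_4d37d6_al.WP

open Nat.Partrec (Code)
open Nat.Partrec.Code

variable {α β : Type} [Primcodable α] [Primcodable β]

/-- projection of a primitive recursive predicate -/
def Sig (p : α → Prop) : Prop :=
  ∃ q : α × ℕ → Prop, PrimrecPred q ∧ ∀ a, p a ↔ ∃ k, q (a, k)

theorem Sig.of_eq {p q : α → Prop} (h : Sig p) (e : ∀ a, p a ↔ q a) : Sig q :=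
  (funext fun a => propext (e a) : p = q) ▸ h

theorem Sig.of_prim {p : α → Prop} (h : PrimrecPred p) : Sig p :=
  ⟨fun x => p x.1, h.comp Primrec.fst, fun a => by simp⟩

theorem Sig.comp {p : β → Prop} {f : α → β} (h : Sig p) (hf : Primrec f) :
    Sig fun a => p (f a) := by
  obtain ⟨q, h1, h2⟩ := h
  exact ⟨fun x => q (f x.1, x.2), h1.comp ((hf.comp Primrec.fst).pair Primrec.snd),
    fun a => h2 _⟩

theorem Sig.and {p q : α → Prop} (h : Sig p) (h' : Sig q) : Sig fun a => p a ∧ q a := by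
  obtain ⟨r, h1, h2⟩ := h
  obtain ⟨r', h3, h4⟩ := h'
  have u : Primrec fun x : α × ℕ => x.2.unpair := Primrec.unpair.comp Primrec.snd
  refine ⟨fun x => r (x.1, x.2.unpair.1) ∧ r' (x.1, x.2.unpair.2),
    (h1.comp (Primrec.fst.pair (Primrec.fst.comp u))).and
      (h3.comp (Primrec.fst.pair (Primrec.snd.comp u))), fun a => ?_⟩
  beta_reduce
  rw [h2, h4]
  exact ⟨fun ⟨⟨k, hk⟩, ⟨l, hl⟩⟩ => ⟨k.pair l, by simpa using ⟨hk, hl⟩⟩,
    fun ⟨k, hk, hl⟩ => ⟨⟨_, hk⟩, _, hl⟩⟩

theorem Sig.ex [Inhabited β] {p : α → β → Prop} (h : Sig fun x : α × β => p x.1 x.2) :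
    Sig fun a => ∃ b, p a b := by
  obtain ⟨r, h1, h2⟩ := h
  have u : Primrec fun x : α × ℕ => x.2.unpair := Primrec.unpair.comp Primrec.snd
  refine ⟨fun x => r ((x.1, (Encodable.decode x.2.unpair.1 : Option β).getD default),
    x.2.unpair.2), h1.comp ((Primrec.fst.pair (Primrec.option_getD.comp
      (Primrec.decode.comp (Primrec.fst.comp u)) (Primrec.const default))).pair
      (Primrec.snd.comp u)), fun a => ⟨fun ⟨b, hb⟩ => ?_, fun ⟨k, hk⟩ => ⟨_, (h2 _).2 ⟨_, hk⟩⟩⟩⟩
  obtain ⟨k, hk⟩ := (h2 (a, b)).1 hb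
  exact ⟨(Encodable.encode b).pair k, by simpa using hk⟩

/-- the run of program `n` on input `n` for `k` steps -/
def run (n k : ℕ) : Option ℕ := evaln k (Denumerable.ofNat Code n) n

theorem pr_run : Primrec₂ run :=
  primrec_evaln.comp ((Primrec.snd.pair ((Primrec.ofNat Code).comp Primrec.fst)).pair Primrec.fst)

/-- program `n` on input `n` gives `0` exactly at stage `s` -/
def PP (n s : ℕ) : Prop := run n (s + 1) = some 0 ∧ run n s = none

/-- program `n` on input `n` gives `1` by stage `k` -/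
def QQ (n k : ℕ) : Prop := run n k = some 1

theorem pr_PP : PrimrecRel PP :=
  (Primrec.eq.comp (pr_run.comp Primrec.fst (Primrec.succ.comp Primrec.snd))
    (Primrec.const _)).and (Primrec.eq.comp pr_run (Primrec.const _))

theorem pr_QQ : PrimrecRel QQ := Primrec.eq.comp pr_run (Primrec.const _)

theorem run_mono {n k l x : ℕ} (h : k ≤ l) (hx : run n k = some x) : run n l = some x :=
  evaln_mono h hx

theorem PP.unique {n s t : ℕ} (h : PP n s) (h' : PP n t) : s = t := by
  rcases lt_trichotomy s t with e | e | e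
  · exact absurd ((run_mono e h.1).symm.trans h'.2) (by simp)
  · exact e
  · exact absurd ((run_mono e h'.1).symm.trans h.2) (by simp)

theorem QQ.succ {n k : ℕ} (h : QQ n k) : QQ n (k + 1) := run_mono k.le_succ h

theorem QQ.zero (n : ℕ) : ¬ QQ n 0 := by simp [QQ, run, evaln]

theorem PP.not_QQ {n s k : ℕ} (h : PP n s) : ¬ QQ n k := fun h' => by
  have h1 := run_mono (le_max_left (s + 1) k) h.1
  rw [run_mono (le_max_right (s + 1) k) h'] at h1
  simp at h1

theorem inseparable {E₁ E₂ : ℕ → Prop} (h₁ : Sig E₁) (h₂ : Sig E₂) (hc : ∀ n, E₁ n ∨ E₂ n)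
    (hQ : ∀ n k, QQ n k → ¬ E₁ n) (hP : ∀ n s, PP n s → ¬ E₂ n) : False := by
  classical
  obtain ⟨q₁, p₁, e₁⟩ := h₁
  obtain ⟨q₂, p₂, e₂⟩ := h₂
  have hex : ∀ n, ∃ k, q₁ (n, k) ∨ q₂ (n, k) := fun n => by
    rcases hc n with h | h
    · exact ((e₁ n).1 h).imp fun _ => Or.inl
    · exact ((e₂ n).1 h).imp fun _ => Or.inr
  have hf : Computable fun n => Nat.find (hex n) :=
    Computable.find (P := fun n k => q₁ (n, k) ∨ q₂ (n, k)) (p₁.or p₂).computablePred hex
  have hg : Computable fun n => if q₁ (n, Nat.find (hex n)) then 1 else 0 :=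
    comp_ite (cp_comp p₁.computablePred (Computable.id.pair hf)) (Computable.const 1)
      (Computable.const 0)
  obtain ⟨c, hc⟩ := exists_code.1 (Partrec.nat_iff.1 hg)
  obtain ⟨n, hn⟩ : ∃ n, Denumerable.ofNat Code n = c := ⟨Encodable.encode c, by simp⟩
  have h1 : ∃ k, run n k = some (if q₁ (n, Nat.find (hex n)) then 1 else 0) := by
    refine evaln_complete.1 ?_
    rw [hn, hc]
    simp
  split_ifs at h1 with h
  · obtain ⟨k, hk⟩ := h1
    exact hQ n k hk ((e₁ n).2 ⟨_, h⟩)
  · have h2 := Nat.find_spec h1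
    have h3 := @Nat.find_min _ _ h1
    generalize Nat.find h1 = k at h2 h3
    cases k with
    | zero => simp [run, evaln] at h2
    | succ k =>
      refine hP n k ⟨h2, ?_⟩ ((e₂ n).2 ⟨_, (Nat.find_spec (hex n)).resolve_left h⟩)
      rcases e : run n k with _ | x
      · rfl
      · exact absurd (e.trans ((run_mono k.le_succ e).symm.trans h2)) (h3 k.lt_succ_self)

end Pool.Agent.Lib.MP_4d37d6_al.WP
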